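import Pool.Agent.Helper55_DDQ.Stmts
import Pool.Agent.Helper12_DDS.Defs

/-!
# Squad PRP (MP_1bc3a0_ag, helper94): correspondences over the function field

`X` a variety over a number field `k`, `L = k(X)`; `M/L` a regular extension with a second embedding
`φ : k(X) → M`, `M = L(φ(k(X)))`, `t` a transcendence basis of `M/L` with `[M : L(t)] = n`. Then
`d ∈ δ(X)` implies `n d ∈ δ(X)`.

1. BNS: Bertini - Noether (weak Nullstellensatz). REG: primitive element, the equation `H`.
2. SPF: the specialised field. CPR, COR: the specialisation of the correspondence.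
3. AFF: the theorem for affine models. SCH: the affine model of a scheme. FIN.
-/

set_option autoImplicit false

open scoped TensorProduct

namespace Pool.Agent.PRP

open MvPolynomial

/-- BNS. Bertini - Noether.

Proof. `D` = the total degree of `H` (positive), `m₀` a monomial of degree `D` of `H` with the coefficient `c₀ ≠ 0`.
`R = MvPolynomial (N ⊕ N) A`, `N` = the monomials of degree `< D`; generic `P`, `Q` over `R` with these monomials;
`J` = the ideal of `R` generated by the coefficients of `P * Q - H`. If `J` generated a proper ideal of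
`MvPolynomial (N ⊕ N) L`, a maximal ideal above it would have a residue field finite over `L` (Zariski's lemma), which
embeds in `AlgebraicClosure L`: a factorisation of the image of `H` in factors of degree `< D`, so none of them is a
unit. So `1` is in the extended ideal, and `C a ∈ J` for some `a ≠ 0` (`IsLocalization.mem_map_algebraMap_iff`,
`MvPolynomial.isLocalization`). `h = a * c₀`: if `χ h ≠ 0` and `χ(H) = P' Q'` without units then both have degree `< D`
(the degree of `χ(H)` is `D`), their coefficients give `R → K` over `χ` which kills `J`: `χ a = 0`. -/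
def BnsStmt : Prop :=
  ∀ (A L : Type) [CommRing A] [IsDomain A] [Field L] [Algebra A L] [IsFractionRing A L]
    (σ : Type) [Finite σ] (H : MvPolynomial σ A),
    Irreducible (map ((algebraMap L (AlgebraicClosure L)).comp (algebraMap A L)) H) →
    ∃ h : A, h ≠ 0 ∧ ∀ (K : Type) [Field K] (χ : A →+* K), χ h ≠ 0 → Irreducible (map χ H)

/-- the value of `P(T, Y)` at `t`, `θ` -/
noncomputable def ev {A M : Type} [CommRing A] [CommRing M] [Algebra A M] {s : ℕ}
    (t : Fin s → M) (θ : M) : Polynomial (MvPolynomial (Fin s) A) →+* M :=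
  Polynomial.eval₂RingHom (aeval t).toRingHom θ

/-- REG. The equation of a regular extension.

Proof. `R = MvPolynomial (Fin s) L`, `M` is an `R`-algebra by `aeval t` (injective), `K = adjoin L (range t)` is its
fraction field (`IntermediateField.algebraAdjoinAdjoin`, `AlgebraicIndependent.aevalEquiv`), `[M : K] = n > 0`.
`Field.exists_primitive_element K M`, times an element of `R`: `θ` integral over `R` with `K(θ) = M`. `H = minpoly R θ`
(`R` is integrally closed): monic, `H` maps to `minpoly K θ` (`minpoly.isIntegrallyClosed_eq_field_fractions'`), so the degree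
is `n`; `minpoly.isIntegrallyClosed_dvd_iff`. Every `m` is a polynomial in `θ` over `K`: clear denominators.
Irreducible over `L' = AlgebraicClosure L`: `H` is prime there: the kernel of `L'[T][Y] → L' ⊗ M` (`T ↦ 1 ⊗ t`, `Y ↦ 1 ⊗ θ`) is
generated by the image of `H`: `L[T][Y] → L[T][Y] → M` (multiplication by `H`, `ev t θ`) is exact, and `L'` is flat over
`L` (`Module.Flat.lTensor_exact`), `L' ⊗ L[T][Y] = L'[T][Y]` (`MvPolynomial.algebraTensorAlgEquiv`, `polyEquivTensor` or
`MvPolynomial.optionEquivLeft`). `L' ⊗ M` is a domain. -/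
def RegStmt : Prop :=
  ∀ (L M : Type) [Field L] [CharZero L] [Field M] [Algebra L M] (s n : ℕ) (t : Fin s → M),
    IsDomain (AlgebraicClosure L ⊗[L] M) → AlgebraicIndependent L t → 0 < n →
    Module.finrank (IntermediateField.adjoin L (Set.range t)) M = n →
    ∃ (θ : M) (H : Polynomial (MvPolynomial (Fin s) L)), H.Monic ∧ H.natDegree = n ∧
      (∀ P : Polynomial (MvPolynomial (Fin s) L), ev t θ P = 0 ↔ H ∣ P) ∧
      (∀ m : M, ∃ (q : MvPolynomial (Fin s) L) (P : Polynomial (MvPolynomial (Fin s) L)),
        q ≠ 0 ∧ m * aeval t q = ev t θ P) ∧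
      Irreducible (H.map (map (algebraMap L (AlgebraicClosure L))))

/-- SPF. The specialised field.

Proof. `R = MvPolynomial (Fin s) K`, `F = FractionRing R`, `M = AdjoinRoot (H.map (algebraMap R F))`: the polynomial is
irreducible (Gauss: `Polynomial.Monic.irreducible_iff_irreducible_map_fraction_map`). `t j` = the image of `X j`, `θ` = the
root. Kernel: `P(θ) = 0` iff `H` divides `P` over `F`, iff over `R` (`H` is monic: `Polynomial.map_dvd_map` or the division with
remainder). `[M : F] = natDegree H`, and `adjoin K (range t)` is the image of `F`. -/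
def SpfStmt : Prop :=
  ∀ (K : Type) [Field K] (s : ℕ) (H : Polynomial (MvPolynomial (Fin s) K)), H.Monic →
    Irreducible H → ∃ (M : Type) (_ : Field M) (_ : Algebra K M) (t : Fin s → M) (θ : M),
      AlgebraicIndependent K t ∧
      (∀ P : Polynomial (MvPolynomial (Fin s) K), ev t θ P = 0 ↔ H ∣ P) ∧
      IntermediateField.adjoin K (insert θ (Set.range t)) = ⊤ ∧
      Module.finrank (IntermediateField.adjoin K (Set.range t)) M = H.natDegree

/-- the conclusion of the specialisation -/
def Spec {k A M : Type} [Field k] [CommRing A] [Algebra k A] [CommRing M] [Algebra k M]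
    (s n r : ℕ) (w : Fin r → M) (G : MvPolynomial (Fin r) k) : Prop :=
  ∃ h : A, h ≠ 0 ∧ ∀ (K : Type) [Field K] [Algebra k K] (χ : A →ₐ[k] K), χ h ≠ 0 →
    ∃ (M' : Type) (_ : Field M') (_ : Algebra K M') (_ : Algebra k M') (_ : IsScalarTower k K M')
      (t' : Fin s → M') (w' : Fin r → M'), AlgebraicIndependent K t' ∧
      Module.finrank (IntermediateField.adjoin K (Set.range t')) M' = n ∧
      IntermediateField.adjoin K (Set.range w') = ⊤ ∧
      (∀ P : MvPolynomial (Fin r) k, aeval w P = 0 → aeval w' P = 0) ∧ aeval w' G ≠ 0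

/-- CPR. The specialisation if all data are defined over `A`.

Proof. `B = AdjoinRoot H`, `ι : B → M` injective (kernel of `ev t θ`), `M` is its field of fractions. Let `V ∈ B` be a common
denominator of `w i`, `(aeval w D)⁻¹`, `(aeval w G)⁻¹` (`V ≠ 0`). `B[1/V]` contains them. There are `V' ∈ A[T]`, `V' ≠ 0`, `b ∈ B`
with `V * b = V'` (`M` is algebraic over the fractions of `A[T]`, `IsAlgebraic.exists_nonzero_dvd`); `v` = a nonzero
coefficient of `V'`. `h = v * h₀`, `h₀` from BNS for `H` (as a polynomial in `Option (Fin s)`, `optionEquivLeft`). If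
`χ h ≠ 0`: `H_χ` is irreducible, monic; SPF: `M'`, `t'`, `θ'`; `ψ : B → M'` over `χ`; `ψ V ≠ 0` because `ψ V' = V'_χ(t') ≠ 0`; so `ψ`
extends to `B[1/V]`. `w' i = ψ (w i)`. All relations over `A` are preserved: `aeval w' (D_χ) = ψ (aeval w D)` is invertible,
`t' j * .. = ..`, so `t'`, `θ'` are in `K(w')`. -/
def CprStmt : Prop :=
  ∀ (k A L M : Type) [Field k] [CommRing A] [IsDomain A] [Algebra k A] [Field L] [CharZero L]
    [Algebra A L] [IsFractionRing A L] [Field M] [Algebra A M] [FaithfulSMul A M] [Algebra k M]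
    [IsScalarTower k A M] (s n r : ℕ) (t : Fin s → M) (θ : M)
    (H : Polynomial (MvPolynomial (Fin s) A)) (w : Fin r → M) (D N' : MvPolynomial (Fin r) A)
    (N : Fin s → MvPolynomial (Fin r) A) (G : MvPolynomial (Fin r) k), 0 < n →
    AlgebraicIndependent A t → H.Monic → H.natDegree = n →
    (∀ P : Polynomial (MvPolynomial (Fin s) A), ev t θ P = 0 ↔ H ∣ P) →
    (∀ m : M, ∃ (q : MvPolynomial (Fin s) A) (P : Polynomial (MvPolynomial (Fin s) A)),
        q ≠ 0 ∧ m * aeval t q = ev t θ P) →
    Irreducible (H.map (map ((algebraMap L (AlgebraicClosure L)).comp (algebraMap A L)))) →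
    aeval w D ≠ 0 → (∀ j, t j * aeval w D = aeval w (N j)) → θ * aeval w D = aeval w N' →
    aeval w G ≠ 0 → Spec (A := A) s n r w G

/-- COR. The specialisation.

Proof. REG: `θ`, `H` over `L`. `t j`, `θ` are in `L(w)`: `t j * D(w) = N j (w)`, `θ * D(w) = N'(w)` with polynomials over `L`,
then over `A` (common denominators). `g ∈ A`, `g ≠ 0`: the coefficients of `H` are in `A' = A[1/g]` (`Localization.Away g`).
CPR for `A'` (`ev t θ P = 0 ↔ H ∣ P` over `A'` since `H` is monic: division with remainder). `h' = h / g ^ m`; `h * g` works: `χ`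
with `χ (h g) ≠ 0` extends to `A'`. -/
def CorStmt : Prop :=
  ∀ (k A L M : Type) [Field k] [CommRing A] [IsDomain A] [Algebra k A] [Field L] [CharZero L]
    [Algebra A L] [IsFractionRing A L] [Field M] [Algebra L M] [Algebra A M] [IsScalarTower A L M]
    [Algebra k M] [IsScalarTower k A M] (s n r : ℕ) (t : Fin s → M) (w : Fin r → M)
    (G : MvPolynomial (Fin r) k), 0 < n → IsDomain (AlgebraicClosure L ⊗[L] M) →
    AlgebraicIndependent L t →
    Module.finrank (IntermediateField.adjoin L (Set.range t)) M = n →
    IntermediateField.adjoin L (Set.range w) = ⊤ → aeval w G ≠ 0 → Spec (A := A) s n r w G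

/-- AFF. The theorem for affine models.

Proof. Let `P` be nonzero at some point of the zero set `Z`; `P ∉ I`. COR for `A = k[x] ⧸ I`, `w i = φ (x i)`, `G = P` (`φ` is
injective): `h ∈ A`, a lift `h' ∉ I`; `I` is a prime ideal, so `h'` is nonzero at some point of `Z`
(`DDS.mem_of_vanish`). Density: `x ∈ Z` of degree `d` with `h'(x) ≠ 0`; `K = k(x)`, `χ : A → K`. COR: `M'`, `t'`, `w'`; `DDQ.TrlStmt`
(proved: `DDQ.H55.trl'`): `y` with `y ∈ Z`, `P(y) ≠ 0`, degree `n d`. -/
def AffStmt : Prop :=
  ∀ (k : Type) [Field k] [NumberField k] (r : ℕ) (I : Ideal (MvPolynomial (Fin r) k)), I.IsPrime →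
    ∀ (L M : Type) [Field L] [Algebra (MvPolynomial (Fin r) k ⧸ I) L]
    [IsFractionRing (MvPolynomial (Fin r) k ⧸ I) L] [Field M] [Algebra L M]
    (φ : (MvPolynomial (Fin r) k ⧸ I) →+* M) (s n : ℕ) (t : Fin s → M), Function.Injective φ →
    (∀ a : k, φ (algebraMap k _ a) =
      algebraMap L M (algebraMap (MvPolynomial (Fin r) k ⧸ I) L (algebraMap k _ a))) →
    IntermediateField.adjoin L (Set.range φ) = ⊤ → IsDomain (AlgebraicClosure L ⊗[L] M) →
    0 < s → 0 < n → AlgebraicIndependent L t →
    Module.finrank (IntermediateField.adjoin L (Set.range t)) M = n → ∀ d : ℕ,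
    DDS.DenseDeg k (DDS.Zeros k (I : Set (MvPolynomial (Fin r) k))) d →
    DDS.DenseDeg k (DDS.Zeros k (I : Set (MvPolynomial (Fin r) k))) (n * d)

end Pool.Agent.PRP
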